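import Pool.Agent.H654R5.PT.All
import Pool.Agent.H861R3.NT.FinalPtt

/-!
# Polynomial-time truth-table reductions of the halting problem to the random strings

The answer depends on the universal machine.

Positive half.  The universal machine runs a strategy which stores the items `e` of the domain of a
reference machine in cells: the candidate cells of an item are the outputs of an explicit
disperser (Guruswami-Umans-Vadhan condensers over `GF(2)`, Trevisan extractors with weak designs, a
prefix/suffix composition), so that less than half of the cells of a level are ever needed;
in its cell, the item is written as a codeword of large distance (a polynomial code concatenated
with a Hadamard code) whose ones are nonrandom strings.  The adversary (the short programs of the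
reference machine) makes few strings of every length nonrandom; when it spoils too many strings of
a cell, all strings of the cell are made nonrandom and the item moves.  So `e` is in the domain if
and only if one of its polynomially many candidate cells carries exactly the codeword of `e`, up
to strings which are nonrandom in addition, which is a Boolean formula of polynomial size.

Negative half.  For every reduction, a finite game on a window of lengths is played; a strategy
stealing argument shows that for one of the two values the truth table of a fresh input can be
kept at this value as long as the others spend little, and multiplicative weights of the lengths
bound the number of strings which have to be made nonrandom.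
-/

namespace Pool.Agent.Results.MP_8427ed_lc.DependsOnU

open Pool.Agent.H544R2
open Pool.Agent.H654R5.PT (PttReduces K0 positive)
open Pool.Agent.H861R3.NT (re_KHALT main_ptt)

/-- **Polynomial-time truth-table reductions to the random strings.**
There is a universal machine for which both forms of the halting problem, and in fact all
recursively enumerable sets, are polynomial-time truth-table reducible to the random strings, and
there is a universal machine for which neither form of the halting problem is. -/
theorem result :
    (∃ U : List Bool →. List Bool, IsUniversal U ∧
      PttReduces K0 (randomStrings U) ∧ PttReduces HALT (randomStrings U) ∧
      ∀ H : Set (List Bool), REPred (· ∈ H) → PttReduces H (randomStrings U)) ∧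
    (∃ U : List Bool →. List Bool, IsUniversal U ∧
      ¬ PttReduces K0 (randomStrings U) ∧ ¬ PttReduces HALT (randomStrings U)) := by
  refine ⟨?_, ?_⟩
  · obtain ⟨U, h1, h2, h3⟩ := positive
    exact ⟨U, h1, h3 _ re_KHALT, h2, h3⟩
  · obtain ⟨U, h1, h2, h3⟩ := main_ptt
    exact ⟨U, h1, h3, h2⟩

end Pool.Agent.Results.MP_8427ed_lc.DependsOnU
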